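import Pool.Agent.Work.MP_db9399_lc.Interface
import Pool.Agent.Work.MP_db9399_px.LInterface

/-!
# MP_db9399, block THIN: random edge types with prescribed classes at the boundary edges
(owner helper59; for THEOREM OUT of helper1, notes 1317 and message 15911)

The edges of `G` get types `none` (the host) or `some i` (the class `i`). Boundary edges at a spot
vertex `s` get a type from the support of `q (lb s)`. All classes are nearly regular, the host is a
thinned copy of `G` without almost bipartite parts and without small near-components (the size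
bound is the one of `G`). The non-boundary edges at spot vertices are the fake edges.
-/

set_option autoImplicit false

namespace Pool.Agent.Work.MP_db9399_th

open Finset Classical
open Pool.Agent.Work.MP_db9399_all (nb)
open Pool.Agent.Work.MP_db9399_px (ee)
open Pool.Agent.Work.MP_db9399_lc (BL)

universe u

section defs
variable {V : Type u}

/-- the edges of type `c` -/
def cls {C : Type} (G : SimpleGraph V) (ty : V → V → C) (c : C) : SimpleGraph V where
  Adj v w := G.Adj v w ∧ ty v w = c ∧ ty w v = c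
  symm := ⟨fun _ _ h => ⟨h.1.symm, h.2.2, h.2.1⟩⟩
  loopless := ⟨fun v h => G.loopless.irrefl v h.1⟩

variable [Fintype V]

/-- spot vertices `Sp` and boundary edges `B` in the embedded graph `G`: the other edges at a
vertex of `Sp` are fake edges, a vertex outside `Sp` is in at most one of them -/
structure Bdry (θ : ℝ) (G : SimpleGraph V) (d : ℕ) (Sp : Finset V) (B : SimpleGraph V) :
    Prop where
  le : B ≤ G
  one : ∀ v w, B.Adj v w → (v ∈ Sp ↔ w ∉ Sp)
  ind : ∀ v ∈ Sp, ∀ w ∈ Sp, ¬ G.Adj v w
  deg : ∀ s ∈ Sp, ((nb B s).card : ℝ) ≤ θ * d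
  fak : ∀ y, y ∉ Sp → ((nb G y ∩ Sp) \ nb B y).card ≤ 1

/-- `q l` is a probability distribution on the types for every label `l`; the average is `φ` -/
structure Kern {n : ℕ} {L : Type} [Fintype L] (q : L → Option (Fin n) → ℝ)
    (φ : Option (Fin n) → ℝ) : Prop where
  pos : ∀ l c, 0 ≤ q l c
  sum : ∀ l, ∑ c, q l c = 1
  avg : ∀ c, ∑ l, q l c = Fintype.card L * φ c

/-- the host: `BL` of LC with a separate size bound `b` for near-components -/
structure Host (g ε b : ℝ) (H : SimpleGraph V) (D : ℕ) : Prop where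
  deg : ∀ v, (nb H v).card ≤ D
  low : ∀ v, (1 - ε) * D ≤ ((nb H v).card : ℝ)
  bip : ∀ S T : Finset V, Disjoint S T → (S.card : ℝ) ≤ (1 + g) * T.card →
    g * D * T.card ≤ ∑ t ∈ T, ((nb H t \ S).card : ℝ)
  nsc : ∀ C : Finset V, (C.card : ℝ) ≤ b →
    g * D * C.card ≤ ∑ v ∈ C, ((nb H v \ C).card : ℝ)
  big : 3 * D ≤ Fintype.card V

end defs

/-- EDGX (local lemma over connected pairs; from PBM, CNT, BALL, WALK, LLLI): the edges of a graph
can be partitioned into `M` classes with equal degrees at all vertices and equal numbers of edges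
between all pairs of sets. -/
def Stmt_EDGX : Prop :=
  ∀ (M : ℕ) (ε : ℝ), 0 < M → 0 < ε → ∃ d0 : ℕ, ∀ {V : Type u} [Fintype V] (G : SimpleGraph V)
    (d : ℕ), d0 ≤ d → (∀ v, (nb G v).card ≤ d) →
    ∃ f : V → V → Fin M, (∀ v w, f v w = f w v) ∧
      (∀ v i, |(((nb G v).filter (fun w => f v w = i)).card : ℝ) - (nb G v).card / M| ≤
        ε * d) ∧
      ∀ (i : Fin M) (T S : Finset V),
        |ee (cls G f i) T S - ee G T S / M| ≤ ε * d * ((T.card : ℝ) + S.card)

/-- THIN (from EDGX): the edge types. `th` is a lower bound for the densities `φ`. -/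
def Stmt_THIN : Prop :=
  ∀ (n K : ℕ) (g th ε : ℝ), 0 < g → g ≤ 1 / 10 → 0 < th → 0 < ε → 0 < K →
    ∃ (ε0 σ : ℝ) (d0 : ℕ), 0 < ε0 ∧ 0 < σ ∧
    ∀ {V : Type u} [Fintype V] {L : Type} [Fintype L] (G : SimpleGraph V) (d : ℕ)
      (Sp : Finset V) (B : SimpleGraph V) (lb : V → L) (q : L → Option (Fin n) → ℝ)
      (φ : Option (Fin n) → ℝ), d0 ≤ d → BL g ε0 G d → Bdry (th / 100) G d Sp B →
      Fintype.card L = K → Kern q φ → (∀ c, th ≤ φ c) →
      (∀ y, y ∉ Sp → ∀ l, |(((nb B y).filter (fun s => lb s = l)).card : ℝ) -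
        (nb B y).card / K| ≤ σ * d) →
      ∃ (ty : V → V → Option (Fin n)) (D : ℕ), (∀ v w, ty v w = ty w v) ∧
        (∀ c v, |((nb (cls G ty c) v).card : ℝ) - φ c * d| ≤ ε * d) ∧
        |(D : ℝ) - φ none * d| ≤ ε * d ∧
        Host (g / 20) ε ((1 + g) * d) (cls G ty none) D ∧
        ∀ y s, B.Adj y s → s ∈ Sp → 0 < q (lb s) (ty y s)

end Pool.Agent.Work.MP_db9399_th
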